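import Pool.Agent.Helper175_AZ.Coset

set_option autoImplicit false

universe u

/-! # Analytic zero divisors and cosets of a subgroup

For a subgroup `H` of `G` and a finite set `C` of left cosets of `H`, the part of the kernel of `α`
which is supported on the cosets in `C` is compared with the whole kernel.

Idea: let `P` be the projection of `ℓ²(G)` onto the closure of the range of convolution by `α`, and
let `D` be the set of the translates of the cosets in `C` by the support of `α`. The functions
supported on `C` are mapped to functions supported on `D`; the closure of this image is a module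
over the von Neumann algebra of `H` of dimension `|C| - dim (kernel on C)`, and the dimension of
`P` compressed to `D` is `|D| (1 - dim ker α)`. -/

namespace Pool.Agent.Results.MP_0f25e6_al.CosetWindows

/-- `α * f` is nonzero for every nonzero square-summable `f`, where
`(α * f)(g) = ∑ α(k) f(k⁻¹ g)`. -/
def Regular {G : Type u} [Group G] (α : G →₀ ℂ) : Prop :=
  ∀ f : G → ℂ, Memℓp f 2 → f ≠ 0 → ∃ g : G, ∑ k ∈ α.support, α k * f (k⁻¹ * g) ≠ 0

/-- All square-summable `f` with `α * f = 0`. -/
def kernel {G : Type u} [Group G] (α : G →₀ ℂ) : Set (lp (fun _ : G => ℂ) 2) :=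
  {f | ∀ g : G, ∑ k ∈ α.support, α k * f (k⁻¹ * g) = 0}

open Classical in
/-- The von Neumann dimension of the kernel of left convolution by `α`: one minus the square of the
distance from the basis vector at the identity of `G` to the kernel (this is the squared length of
the projection of that vector to the kernel). -/
noncomputable def kerDim {G : Type u} [Group G] (α : G →₀ ℂ) : ℝ :=
  1 - Metric.infDist (lp.single 2 (1 : G) (1 : ℂ)) (kernel α) ^ 2

section
variable {G : Type u} [Group G] (H : Subgroup G)

/-- All square-summable `f` with `α * f = 0` which vanish outside the left cosets in `C`. -/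
def partKernel (α : G →₀ ℂ) (C : Finset (G ⧸ H)) : Set (lp (fun _ : G => ℂ) 2) :=
  {f | f ∈ kernel α ∧ ∀ g : G, f g ≠ 0 → (g : G ⧸ H) ∈ C}

open Classical in
/-- The von Neumann dimension over `H` of the part of the kernel of `α` which is supported on the
left cosets in `C`: the sum, over the cosets in `C`, of the squared lengths of the projections to
this part of the basis vectors at representatives of the cosets. It is between `0` and `|C|`, and
it is `0` if the part is zero. -/
noncomputable def partDim (α : G →₀ ℂ) (C : Finset (G ⧸ H)) : ℝ :=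
  ∑ c ∈ C, (1 - Metric.infDist (lp.single 2 c.out (1 : ℂ)) (partKernel H α C) ^ 2)

open Classical in
/-- The left cosets `t c` with `t` in `T` and `c` in `C`. -/
noncomputable def translates (T : Finset G) (C : Finset (G ⧸ H)) : Finset (G ⧸ H) :=
  (T ×ˢ C).image (fun p => p.1 • p.2)

open Classical in
/-- The left cosets of `H` which meet the support of `α`. -/
noncomputable def cosets (α : G →₀ ℂ) : Finset (G ⧸ H) :=
  α.support.image (fun g : G => (g : G ⧸ H))

/-- `H` is co-amenable in `G`: the action of `G` on `G / H` has Følner sets. -/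
def CoAmenable : Prop := ∀ (T : Finset G) (ε : ℝ), 0 < ε →
  ∃ C : Finset (G ⧸ H), C.Nonempty ∧ ((translates H T C).card : ℝ) ≤ (1 + ε) * C.card

/-- The action of `G` on `G / H` has unique products: for all nonempty finite sets `T` of elements
and `C` of cosets, some coset `t c` is of this form for one `c` in `C` only. -/
def UniqueProducts : Prop := ∀ (T : Finset G) (C : Finset (G ⧸ H)), T.Nonempty → C.Nonempty →
  ∃ t ∈ T, ∃ c ∈ C, ∀ t' ∈ T, ∀ c' ∈ C, t' • c' = t • c → c' = c

end

open Pool.Agent.W649.ZL Pool.Agent.Helper175_AZ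

section
variable {G : Type u} [Group G] (H : Subgroup G) (α : G →₀ ℂ)

theorem kerDim_eq : kerDim α = kd α := kerDim_eq_vd α

open Classical in
theorem toU_single' (x : G) :
    toU (lp.single 2 x (1 : ℂ)) = (dl ((x, ()) : G × Unit) : EE G Unit) := by
  ext ⟨y, ⟨⟩⟩
  rw [toU_apply]
  by_cases hx : y = x
  · subst hx
    rw [dl_apply_self]
    exact lp.single_apply_self (E := fun _ : G => ℂ) 2 y (1 : ℂ)
  · rw [dl_apply_ne]
    · exact lp.single_apply_ne (E := fun _ : G => ℂ) 2 x (1 : ℂ) hx
    · intro h; exact hx (congrArg Prod.fst h)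

theorem toU_image_part (C : Finset (G ⧸ H)) : toU '' partKernel H α C = sker H α C := by
  ext F
  constructor
  · rintro ⟨f, ⟨hf, hs⟩, rfl⟩
    refine ⟨?_, ?_⟩
    · ext ⟨x, ⟨⟩⟩
      rw [cop_apply]
      exact hf x
    · rintro ⟨x, ⟨⟩⟩ hx
      exact hs x hx
  · rintro ⟨h1, h2⟩
    obtain ⟨f, rfl⟩ := toU_surj F
    refine ⟨f, ⟨fun g => ?_, fun g hg => h2 (g, ()) hg⟩, rfl⟩
    have h3 := cop_apply α (toU f) g
    rw [h1] at h3
    exact h3.symm

theorem partDim_eq (C : Finset (G ⧸ H)) : partDim H α C = rd H α C := by
  unfold partDim rd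
  refine Finset.sum_congr rfl fun c _ => ?_
  rw [← toU_image_part, ← toU_single', Metric.infDist_image isometry_toU]

theorem regular_iff_inj : Regular α ↔ Function.Injective (cop α) := regular_iff α

end

/-- **Analytic zero divisors and cosets.** Let `G` be any group and `α` an element of its complex
group algebra with support `T`.

1. Let `H` be a subgroup and `C` a finite set of left cosets of `H`. The von Neumann dimension over
   `H` of the part of the kernel of `α` on `ℓ²(G)` supported on `C` is at most `|C|` times the
   dimension `d` of the kernel, and at least `|C| - (1 - d) |T C|`. In particular, if `α * f ≠ 0`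
   for all nonzero `f` in `ℓ²(G)` supported on `C`, then `d ≤ 1 - |C| / |T C|`.
2. If `H` satisfies the analytic zero divisor conjecture and `T` meets exactly `m ≥ 1` left cosets
   of `H`, then `d ≤ 1 - 1 / m`.
3. If `x⁻¹ y` has infinite order for two elements `x`, `y` of `T` (for instance if `G` is
   torsion-free and `|T| ≥ 2`), then `d ≤ 1 - 1 / (|T| - 1)`.
4. If `H` is co-amenable in `G`, then `α * f ≠ 0` for all nonzero `f` in `ℓ²(G)` if and only if this
   holds for the `f` which are supported on finitely many left cosets of `H`.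
5. If `H` is co-amenable in `G` and satisfies the analytic zero divisor conjecture, and the action
   of `G` on `G / H` has unique products, then `α * f ≠ 0` for all nonzero `f`, if `α ≠ 0`.
6. The action has unique products if `G / H` has a total order which is invariant under `G`. -/
theorem result {G : Type u} [Group G] (α : G →₀ ℂ) :
    (∀ (H : Subgroup G) (C : Finset (G ⧸ H)),
      (C.card : ℝ) - (1 - kerDim α) * (translates H α.support C).card ≤ partDim H α C ∧
        partDim H α C ≤ kerDim α * C.card) ∧
    (∀ H : Subgroup G, (∀ β : H →₀ ℂ, β ≠ 0 → Regular β) → α ≠ 0 →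
      kerDim α ≤ 1 - 1 / ((cosets H α).card : ℝ)) ∧
    (∀ x ∈ α.support, ∀ y ∈ α.support, ¬ IsOfFinOrder (x⁻¹ * y) →
      kerDim α ≤ 1 - 1 / ((α.support.card : ℝ) - 1)) ∧
    (∀ H : Subgroup G, CoAmenable H → (Regular α ↔
      ∀ f : G → ℂ, Memℓp f 2 → f ≠ 0 → {c : G ⧸ H | ∃ g : G, (g : G ⧸ H) = c ∧ f g ≠ 0}.Finite →
        ∃ g : G, ∑ k ∈ α.support, α k * f (k⁻¹ * g) ≠ 0)) ∧
    (∀ H : Subgroup G, (∀ β : H →₀ ℂ, β ≠ 0 → Regular β) → CoAmenable H → UniqueProducts H →
      α ≠ 0 → Regular α) ∧
    (∀ H : Subgroup G, (∃ L : LinearOrder (G ⧸ H), ∀ (g : G) (c d : G ⧸ H),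
      L.le c d → L.le (g • c) (g • d)) → UniqueProducts H) := by
  classical
  refine ⟨?_, ?_, ?_, ?_, ?_, ?_⟩
  · intro H C
    rw [partDim_eq, kerDim_eq]
    refine ⟨window H α C _ fun k hk c hc => ?_, rd_le H α C⟩
    exact Finset.mem_image.2 ⟨(k, c), Finset.mem_product.2 ⟨hk, hc⟩, rfl⟩
  · intro H hH hα
    rw [kerDim_eq]
    exact one_coset H α hH hα _ fun k hk => Finset.mem_image.2 ⟨k, hk, rfl⟩
  · intro x hx y hy hxy
    rw [kerDim_eq]
    exact kd_two α x y hx hy hxy
  · intro H hH
    constructor
    · intro h f hf hf0 _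
      exact h f hf hf0
    · intro h
      rw [regular_iff_inj]
      by_contra hinj
      have hH' : CoAm H := hH
      obtain ⟨C, F, hF, hF0⟩ := coam H α hH' hinj
      have h1 : (fun g : G => F (g, ())) ≠ 0 := by
        intro h0
        apply hF0
        ext ⟨g, ⟨⟩⟩
        exact congrFun h0 g
      obtain ⟨g, hg⟩ := h (fun g => F (g, ())) (memlp_fst F) h1 (by
        refine C.finite_toSet.subset ?_
        rintro c ⟨g, rfl, hg⟩
        exact hF.2 (g, ()) hg)
      exact hg (sker_apply H α C F hF g)
  · intro H hH hC hU hα
    rw [regular_iff_inj]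
    exact extension H α hH hC hU hα
  · rintro H ⟨L, hL⟩
    exact upa_of_order H L hL

end Pool.Agent.Results.MP_0f25e6_al.CosetWindows
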