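import Pool.Agent.Helper175_AZ.Energy

set_option autoImplicit false

universe u

/-! # Analytic zero divisors: uniform bounds for the kernel over torsion-free groups

Idea: let `r` be one minus the dimension of the kernel and `n` the size of the support. For `z ≠ 1`
let `e(z)` be the number of `x` in the support with `x z⁻¹` in the support. The support meets at
most `n - e(z)` left cosets of the infinite cyclic group generated by `z`, so that
`r ≥ 1 / (n - e(z))` (window inequality for cosets). On the other hand the projection of the basis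
vector at the identity to the kernel gives a lower bound for `r` by the energy of `α`, which is
large if all `e(z)` are small. -/

namespace Pool.Agent.Results.MP_0f25e6_al.UniformBound

/-- All square-summable `f` with `α * f = 0`, where `(α * f)(g) = ∑ α(k) f(k⁻¹ g)`. -/
def kernel {G : Type u} [Group G] (α : G →₀ ℂ) : Set (lp (fun _ : G => ℂ) 2) :=
  {f | ∀ g : G, ∑ k ∈ α.support, α k * f (k⁻¹ * g) = 0}

open Classical in
/-- The von Neumann dimension of the kernel of left convolution by `α`: one minus the square of the
distance from the basis vector at the identity of `G` to the kernel (this is the squared length of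
the projection of that vector to the kernel). -/
noncomputable def kerDim {G : Type u} [Group G] (α : G →₀ ℂ) : ℝ :=
  1 - Metric.infDist (lp.single 2 (1 : G) (1 : ℂ)) (kernel α) ^ 2

open Pool.Agent.W649.ZL Pool.Agent.Helper175_AZ

theorem kerDim_eq {G : Type u} [Group G] (α : G →₀ ℂ) : kerDim α = kd α := kerDim_eq_vd α

/-- **Uniform bounds for torsion-free groups.** Let `G` be a group and `α` a nonzero element of the
complex group algebra with support `T` of size `n`, such that `x⁻¹ y` has infinite order for all
distinct `x`, `y` in `T` (for instance, let `G` be torsion-free). Let `d` be the von Neumann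
dimension of the kernel of `α` on `ℓ²(G)` and `r = 1 - d`.

1. `n (n - 1) r² ≥ (n - 2) r + 1`; so `r` is asymptotically at least `1.618 / n`.
2. If `|α(x)|² ≤ M` for all `x`, then `d ∑ |α(x)|² ≤ (n - 1) (n r - 1) M`.
3. If all nonzero coefficients of `α` have the same absolute value, then `d ≤ (1 - 1 / n)²`.
   (For finite groups `d` can be `1 - 1 / n`.)
4. For every `z` of infinite order, `r (n - e(z)) ≥ 1`, where `e(z)` is the number of `x` in `T` such
   that `x z⁻¹` is in `T`; for this the condition on `T` is not needed. -/
theorem result {G : Type u} [Group G] (α : G →₀ ℂ) (hα : α ≠ 0) (n d r : ℝ)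
    (hn : n = α.support.card) (hd : d = kerDim α) (hr : r = 1 - d) :
    ((∀ x ∈ α.support, ∀ y ∈ α.support, x ≠ y → ¬ IsOfFinOrder (x⁻¹ * y)) →
      (n - 2) * r + 1 ≤ n * (n - 1) * r ^ 2 ∧
      (∀ M : ℝ, (∀ x ∈ α.support, ‖α x‖ ^ 2 ≤ M) →
        d * ∑ x ∈ α.support, ‖α x‖ ^ 2 ≤ (n - 1) * (n * r - 1) * M) ∧
      ((∀ x ∈ α.support, ∀ y ∈ α.support, ‖α x‖ = ‖α y‖) → d ≤ (1 - 1 / n) ^ 2)) ∧
    (∀ z : G, ¬ IsOfFinOrder z → ∀ E : Finset G,
      (∀ x, x ∈ E ↔ x ∈ α.support ∧ x * z⁻¹ ∈ α.support) → 1 ≤ r * (n - E.card)) := by
  classical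
  subst hn hr hd
  rw [kerDim_eq]
  refine ⟨fun hT => ⟨quadratic α hα hT, fun M hM => energy α hα hT M hM,
    fun hc => constant α hα hT hc⟩, fun z hz E hE => ?_⟩
  have h1 := chain_bound α hα z hz
  have h2 : E = RR α z := by
    ext x
    rw [hE]
    unfold RR
    rw [Finset.mem_filter]
  rw [h2]
  exact h1

end Pool.Agent.Results.MP_0f25e6_al.UniformBound
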